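import Pool.Agent.Helper6K9.E3.Stm
import Pool.Agent.Helper6K9.E3.SyB
import Pool.Agent.Helper6K9.ES.Apx
import Pool.Agent.Helper6K9.ES.Ops

/-! # [APX]: the approximate solution -/

set_option autoImplicit false

namespace Pool.Agent.Helper87K9.E3

open Set Filter Topology
open scoped ContDiff
open Pool.Agent.Helper6K9.ES (Q E Per Sm dX dT av an res bmp Small Sol)
open Pool.Agent.Helper6K9.E3
open Pool.Agent.Helper6K9

namespace ApxL

variable {m : ℕ}

theorem d2 {a : ℝ} {f : ℝ → ℝ} (H : SyA a f) : ES.D2 f := ⟨H.diffOn, H.deriv.diffOn⟩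

theorem d2_th0 (i : ℕ) : ES.D2 (th0 i) := by
  refine ⟨fun t ht => (hasDerivAt_th0 i ht).differentiableAt.differentiableWithinAt, ?_⟩
  exact (syA_th1 i).diffOn.congr fun t ht => (hasDerivAt_th0 i ht).deriv

theorem syA_deriv_th1 (i : ℕ) : SyA (-4 / 5) (deriv (th1 i)) := by
  have key : ∀ q : ℝ, q ≤ 1 / 5 → (∀ t, 0 < t → th1 i t = t ^ q) →
      SyA (-4 / 5) (deriv (th1 i)) := by
    intro q hq e
    refine (syA_rpow q (q - 1) (by linarith)).congr fun t ht => ?_
    have h1 : th1 i =ᶠ[𝓝 t] fun t => t ^ q := by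
      filter_upwards [lt_mem_nhds ht] with s hs using e s hs
    rw [h1.deriv_eq]
    exact (Real.hasDerivAt_rpow_const (x := t) (p := q) (Or.inl ht.ne')).deriv.symm
  rcases Nat.lt_or_ge i 3 with hi | hi
  · interval_cases i
    · exact key (1 / 5) le_rfl fun t _ => by simp [th1]
    · exact key (-11 / 20) (by norm_num) fun t _ => by simp [th1]
    · exact key (-11 / 10) (by norm_num) fun t _ => by simp [th1]
  · have h0 : i ≠ 0 := by omega
    have h1 : i ≠ 1 := by omega
    have h2 : i ≠ 2 := by omega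
    have e : th1 i = fun _ => 0 := by
      funext s
      simp [th1, h0, h1, h2]
    rw [e]
    exact syA_zero.congr fun t _ => (deriv_const t (0 : ℝ)).symm

theorem syA_deriv2_th0 (i : ℕ) : SyA (-4 / 5) (deriv (deriv (th0 i))) := by
  refine (syA_deriv_th1 i).congr fun t ht => ?_
  refine Filter.EventuallyEq.deriv_eq ?_
  filter_upwards [lt_mem_nhds ht] with s hs using (hasDerivAt_th0 i hs).deriv.symm

/-- periodic functions of the time -/
theorem sm_time {W : ℝ → ℝ} (h1 : ContDiff ℝ ∞ W) (h2 : ∀ t, W (t + 1) = W t) :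
    Sm (fun p : E m => W p.2) := by
  refine ⟨h1.comp contDiff_snd, ?_⟩
  intro p k l
  have hp : Function.Periodic W 1 := h2
  have := hp.int_mul l p.2
  rw [mul_one] at this
  exact this

theorem time_deriv {W : ℝ → ℝ} (h1 : ContDiff ℝ ∞ W) (h2 : ∀ t, W (t + 1) = W t) :
    ContDiff ℝ ∞ (deriv W) ∧ ∀ t, deriv W (t + 1) = deriv W t := by
  refine ⟨(contDiff_infty_iff_deriv.1 h1).2, fun t => ?_⟩
  have e : (fun s => W (s + 1)) = W := funext h2
  have h3 := deriv_comp_add_const (f := W) 1 t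
  rw [← h3, e]

theorem av_time (g : ℝ → ℝ) (p : E m) : av (fun q : E m => g q.2) p = g p.2 := by
  simp [av]

theorem av_mul_time (G : E m → ℝ) (g : ℝ → ℝ) (p : E m) :
    av (fun q => G q * g q.2) p = av G p * g p.2 := by
  unfold av
  exact intervalIntegral.integral_mul_const (g p.2)
    (fun s : ℝ => G (p.1 + s • Pi.single (0 : Fin (m + 1)) (1 : ℝ), p.2))

/-- the second derivative of `t^c W(t)` -/
theorem deriv2_pow (c : ℝ) {W : ℝ → ℝ} (hW : ContDiff ℝ ∞ W) {t : ℝ} (ht : 0 < t) :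
    deriv (deriv fun s => s ^ c * W s) t = c * (c - 1) * t ^ (c - 2) * W t +
      2 * (c * t ^ (c - 1) * deriv W t) + t ^ c * deriv (deriv W) t := by
  have d1 : ∀ s : ℝ, HasDerivAt W (deriv W s) s := fun s =>
    (hW.differentiable (by simp) s).hasDerivAt
  have hW' : ContDiff ℝ ∞ (deriv W) := (contDiff_infty_iff_deriv.1 hW).2
  have d2 : ∀ s : ℝ, HasDerivAt (deriv W) (deriv (deriv W) s) s := fun s =>
    (hW'.differentiable (by simp) s).hasDerivAt
  have e1 : ∀ s : ℝ, 0 < s → HasDerivAt (fun s => s ^ c * W s)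
      (c * s ^ (c - 1) * W s + s ^ c * deriv W s) s := fun s hs =>
    (Real.hasDerivAt_rpow_const (x := s) (p := c) (Or.inl hs.ne')).mul (d1 s)
  have e2 : deriv (fun s => s ^ c * W s) =ᶠ[𝓝 t]
      fun s => c * s ^ (c - 1) * W s + s ^ c * deriv W s := by
    filter_upwards [lt_mem_nhds ht] with s hs using (e1 s hs).deriv
  rw [e2.deriv_eq]
  have e3 : HasDerivAt (fun s => c * s ^ (c - 1) * W s + s ^ c * deriv W s)
      ((c * ((c - 1) * t ^ (c - 1 - 1))) * W t + c * t ^ (c - 1) * deriv W t +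
        (c * t ^ (c - 1) * deriv W t + t ^ c * deriv (deriv W) t)) t :=
    (((Real.hasDerivAt_rpow_const (x := t) (p := c - 1) (Or.inl ht.ne')).const_mul c).mul
      (d1 t)).add ((Real.hasDerivAt_rpow_const (x := t) (p := c) (Or.inl ht.ne')).mul (d2 t))
  rw [e3.deriv, show c - 1 - 1 = c - 2 by ring]
  ring

/-- interchanging the sums in `A B = 1` -/
theorem mulA {A B : Matrix (Fin (m + 1)) (Fin (m + 1)) ℝ} (hAB : A * B = 1)
    (y : Fin (m + 1) → ℝ) (i : Fin (m + 1)) : ∑ j, A i j * ∑ k, B j k * y k = y i := by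
  have : ∑ j, A i j * ∑ k, B j k * y k = ∑ l, (A * B) i l * y l := by
    simp only [Finset.mul_sum, Matrix.mul_apply, Finset.sum_mul]
    rw [Finset.sum_comm]
    exact Finset.sum_congr rfl fun l _ => Finset.sum_congr rfl fun k _ => by ring
  rw [this, hAB]
  simp [Matrix.one_apply]

end ApxL

open ApxL

theorem apx (hc : S_CMP) (ht : S_TAY) (hz : S_ZP) (hid : S_ID) : S_APX := by
  intro m A B h hs hAB hN
  have ho := @ES.ops
  have hh : Sm h := hN.1
  have hav := hN.2.1
  have hBs : B.IsSymm := by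
    have h1 : B.transpose * A = 1 := by
      have := congrArg Matrix.transpose hAB
      rw [Matrix.transpose_mul, hs, Matrix.transpose_one] at this
      exact this
    show B.transpose = B
    calc B.transpose = B.transpose * (A * B) := by rw [hAB, Matrix.mul_one]
      _ = (B.transpose * A) * B := by rw [Matrix.mul_assoc]
      _ = B := by rw [h1, Matrix.one_mul]
  set F : Fin (m + 1) → E m → ℝ := fun i => dX i h with hF
  have hSF : ∀ i, Sm (F i) := fun i => (ho m h hh).1 i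
  have hSD : ∀ i j, Sm (dX i (F j)) := fun i j => (ho m _ (hSF j)).1 i
  have hSI : ∀ k, Sm (an (an (F k))) := fun k =>
    (ho m _ (ho m _ (hSF k)).2.2.2.1).2.2.2.1
  have hSJ : ∀ k, Sm (an (an (an (dT (F k))))) := fun k =>
    (ho m _ (ho m _ (ho m _ (ho m _ (hSF k)).2.1).2.2.2.1).2.2.2.1).2.2.2.1
  have hid' := hid m B h hBs hN
  choose W hW1 hW2 hW3 using fun i => (hid' i).2
  set P : Fin (m + 1) → E m → ℝ := fun i x => ∑ j, ∑ k, B j k * (dX i (F j) x * an (an (F k)) x)
    with hP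
  set R : Fin (m + 1) → E m → ℝ := fun i x => ∑ j, ∑ k, B j k *
    (dX i (F j) x * an (an (an (dT (F k)))) x) with hR
  set S : Fin (m + 1) → E m → ℝ := fun i x => ∑ j, ∑ k, B j k * (dX i (F j) x * W k x.2) with hS
  have hSP : ∀ i, Sm (P i) := fun i => ES.sm_sum _ fun j _ => ES.sm_sum _ fun k _ =>
    ((hSD i j).mul (hSI k)).const_mul _
  have hSR : ∀ i, Sm (R i) := fun i => ES.sm_sum _ fun j _ => ES.sm_sum _ fun k _ =>
    ((hSD i j).mul (hSJ k)).const_mul _
  have hSW : ∀ k, Sm (fun p : E m => W k p.2) := fun k => sm_time (hW1 k) (hW2 k)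
  have hSS : ∀ i, Sm (S i) := fun i => ES.sm_sum _ fun j _ => ES.sm_sum _ fun k _ =>
    ((hSD i j).mul (hSW k)).const_mul _
  have hW' : ∀ k, ContDiff ℝ ∞ (deriv (W k)) ∧ ∀ t, deriv (W k) (t + 1) = deriv (W k) t :=
    fun k => time_deriv (hW1 k) (hW2 k)
  have hW'' : ∀ k, ContDiff ℝ ∞ (deriv (deriv (W k))) ∧
      ∀ t, deriv (deriv (W k)) (t + 1) = deriv (deriv (W k)) t :=
    fun k => time_deriv (hW' k).1 (hW' k).2
  have hSW'' : ∀ k, Sm (fun p : E m => deriv (deriv (W k)) p.2) := fun k =>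
    sm_time (hW'' k).1 (hW'' k).2
  have hP0 : ∀ i p, av (P i) p = 0 := fun i p => (hid' i).1 p
  have hR0 : ∀ i p, av (R i) p = deriv (deriv (W i)) p.2 := fun i p => hW3 i p
  have hD0 : ∀ i j p, av (dX i (F j)) p = 0 := by
    intro i j p
    have e1 := congrFun ((ho m _ (hSF j)).2.2.2.2.1 i) p
    rw [← e1]
    have e2 : av (F j) = fun _ => 0 := funext fun q => hav j q
    rw [e2]
    simp [dX]
  have hS0 : ∀ i p, av (S i) p = 0 := by
    intro i p
    refine (ES.av_sum Finset.univ (H := fun j x => ∑ k, B j k * (dX i (F j) x * W k x.2))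
      (fun j _ => (ES.sm_sum _ fun k _ => ((hSD i j).mul (hSW k)).const_mul _).cont) p).trans ?_
    refine Finset.sum_eq_zero fun j _ => ?_
    refine (ES.av_sum Finset.univ (H := fun k x => B j k * (dX i (F j) x * W k x.2))
      (fun k _ => (((hSD i j).mul (hSW k)).const_mul _).cont) p).trans ?_
    refine Finset.sum_eq_zero fun k _ => ?_
    refine (ES.av_const_mul (B j k) (fun x => dX i (F j) x * W k x.2) p).trans ?_
    rw [av_mul_time, hD0, zero_mul, mul_zero]
  -- the solutions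
  have z1 : ∀ k, ∃ v : ℝ → ℝ, SyA (-2 / 5) v ∧
      (SyA (-4 / 5) fun t => v t - t ^ (-2 / 5 : ℝ) * an (an (F k)) (th m t, t) +
        2 * t ^ (-3 / 5 : ℝ) * an (an (an (dT (F k)))) (th m t, t)) ∧
      SyA (-4 / 5) fun t => F k (th m t, t) - deriv (deriv v) t := by
    intro k
    obtain ⟨u, hu1, hu2, hu3⟩ := hz m 0 (F k) (hSF k) (hav k)
    refine ⟨u, hu1.mono (by norm_num), ?_, ?_⟩
    · refine (hu2.mono (by norm_num)).congr fun t _ => ?_
      norm_num
    · refine (hu3.mono (by norm_num)).congr fun t _ => ?_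
      rw [Real.rpow_zero, one_mul]
  choose v hv1 hv2 hv3 using z1
  have z2 : ∀ k, ∃ u : ℝ → ℝ, SyA (-4 / 5) u ∧
      SyA (-4 / 5) fun t => t ^ (-2 / 5 : ℝ) * P k (th m t, t) - deriv (deriv u) t := by
    intro k
    obtain ⟨u, hu1, _, hu3⟩ := hz m (-2 / 5) (P k) (hSP k) (hP0 k)
    exact ⟨u, hu1.mono (by norm_num), hu3.mono (by norm_num)⟩
  choose p hp1 hp3 using z2
  have z3 : ∀ k, ∃ u : ℝ → ℝ, SyA (-4 / 5) u ∧
      SyA (-4 / 5) fun t => t ^ (-3 / 5 : ℝ) * (R k (th m t, t) - deriv (deriv (W k)) t) -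
        deriv (deriv u) t := by
    intro k
    obtain ⟨u, hu1, _, hu3⟩ := hz m (-3 / 5) (fun x => R k x - deriv (deriv (W k)) x.2)
      ((hSR k).sub (hSW'' k)) (fun q => by
        rw [ES.av_sub (hSR k).cont (hSW'' k).cont, hR0, av_time, sub_self])
    exact ⟨u, hu1.mono (by norm_num), hu3.mono (by norm_num)⟩
  choose r hr1 hr3 using z3
  have z4 : ∀ k, ∃ u : ℝ → ℝ, SyA (-4 / 5) u ∧
      SyA (-4 / 5) fun t => t ^ (-3 / 5 : ℝ) * S k (th m t, t) - deriv (deriv u) t := by
    intro k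
    obtain ⟨u, hu1, _, hu3⟩ := hz m (-3 / 5) (S k) (hSS k) (hS0 k)
    exact ⟨u, hu1.mono (by norm_num), hu3.mono (by norm_num)⟩
  choose s hs1 hs3 using z4
  have hWs : ∀ k, SyA 0 (W k) := fun k => (hc m (th m) _ (crv_th m) (hSW k)).1
  have hWs' : ∀ k, SyA 0 (deriv (W k)) := fun k =>
    (hc m (th m) _ (crv_th m) (sm_time (hW' k).1 (hW' k).2)).1
  -- the function `om`
  set om : Fin (m + 1) → ℝ → ℝ := fun k t => t ^ (-3 / 5 : ℝ) * W k t with hom
  have hom1 : ∀ k, SyA (-3 / 5) (om k) := fun k =>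
    (syA_rpow' (-3 / 5) le_rfl).mul' (hWs k) (by norm_num)
  have hom3 : ∀ k, SyA (-4 / 5) fun t => t ^ (-3 / 5 : ℝ) * deriv (deriv (W k)) t -
      deriv (deriv (om k)) t := by
    intro k
    have e1 : SyA (-4 / 5) fun t => (-3 / 5 * (-3 / 5 - 1)) * t ^ (-3 / 5 - 2 : ℝ) * W k t :=
      (syA_rpow (-3 / 5 * (-3 / 5 - 1)) (-3 / 5 - 2) le_rfl).mul' (hWs k) (by norm_num)
    have e2 : SyA (-4 / 5) fun t => 2 * (-3 / 5 * t ^ (-3 / 5 - 1 : ℝ) * deriv (W k) t) :=
      ((syA_rpow (-3 / 5) (-3 / 5 - 1) le_rfl).mul' (hWs' k) (by norm_num)).const_mul 2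
    refine (e1.add e2).neg.congr fun t ht => ?_
    rw [hom, deriv2_pow (-3 / 5) (hW1 k) ht]
    ring
  -- the curve
  set y : Fin (m + 1) → ℝ → ℝ := fun k t => v k t + (p k t + (-2 * r k t + (-2 * s k t +
    -2 * om k t))) with hy
  have hg1 : ∀ k, SyA (-4 / 5) fun t => p k t + (-2 * r k t + -2 * s k t) := fun k =>
    (hp1 k).add (((hr1 k).const_mul _).add ((hs1 k).const_mul _))
  have hy1 : ∀ k, SyA (-2 / 5) (y k) := fun k =>
    (hv1 k).add (((hp1 k).mono (by norm_num)).add ((((hr1 k).mono (by norm_num)).const_mul _).add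
      ((((hs1 k).mono (by norm_num)).const_mul _).add
        (((hom1 k).mono (by norm_num)).const_mul _))))
  have hyd : ∀ k t, 0 < t → deriv (deriv (y k)) t = deriv (deriv (v k)) t +
      (deriv (deriv (p k)) t + (-2 * deriv (deriv (r k)) t + (-2 * deriv (deriv (s k)) t +
        -2 * deriv (deriv (om k)) t))) := by
    intro k t ht
    have a5 : ES.D2 fun t => -2 * om k t := (d2 (hom1 k)).const_mul _
    have a4 : ES.D2 fun t => -2 * s k t := (d2 (hs1 k)).const_mul _
    have a3 : ES.D2 fun t => -2 * r k t := (d2 (hr1 k)).const_mul _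
    have a45 := a4.add a5
    have a345 := a3.add a45
    have a2 := (d2 (hp1 k)).add a345
    rw [hy]
    simp only
    rw [ES.deriv2_add (d2 (hv1 k)) a2 ht, ES.deriv2_add (d2 (hp1 k)) a345 ht,
      ES.deriv2_add a3 a45 ht, ES.deriv2_add a4 a5 ht, ES.deriv2_const_mul, ES.deriv2_const_mul,
      ES.deriv2_const_mul]
  set u : ℝ → Q m := fun t j => ∑ k, B j k * y k t with hu
  have hu1 : ∀ j, SyA (-2 / 5) fun t => u t j := fun j =>
    syA_sum _ fun k _ => (hy1 k).const_mul _
  set X : ℝ → Q m := fun t => th m t + u t with hX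
  set G : Fin (m + 1) → E m → ℝ := fun j x => ∑ k, B j k * an (an (F k)) x with hG
  have hXd : ∀ j t, 0 < t → deriv (deriv fun s => X s j) t =
      deriv (deriv (th0 j)) t + ∑ k, B j k * deriv (deriv (y k)) t := by
    intro j t ht
    have hs2 := ES.d2_sum Finset.univ (f := fun k t => B j k * y k t)
      fun k _ => (d2 (hy1 k)).const_mul _
    have e1 : (fun s => X s j) = fun s => th0 j s + ∑ k, B j k * y k s := rfl
    have e2 : deriv (deriv fun s => ∑ k, B j k * y k s) t =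
        ∑ k, B j k * deriv (deriv (y k)) t := by
      rw [hs2.2 t ht]
      exact Finset.sum_congr rfl fun k _ => ES.deriv2_const_mul _ _
    rw [e1, ES.deriv2_add (d2_th0 j) hs2.1 ht, e2]
  refine ⟨X, G, ?_, ?_, ?_, ?_⟩
  · exact fun j => ES.sm_sum _ fun k _ => (hSI k).const_mul _
  · intro j
    refine (hu1 j).congr fun t _ => ?_
    simp only [hX, Pi.add_apply]
    ring
  · intro j
    have e1 : SyA (-3 / 5) fun t => ∑ k, B j k * (y k t - t ^ (-2 / 5 : ℝ) *
        an (an (F k)) (th m t, t)) := by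
      refine syA_sum _ fun k _ => SyA.const_mul ?_ _
      have e2 : SyA (-3 / 5) fun t => 2 * t ^ (-3 / 5 : ℝ) *
          an (an (an (dT (F k)))) (th m t, t) :=
        (syA_rpow 2 (-3 / 5) le_rfl).mul' (hc m (th m) _ (crv_th m) (hSJ k)).1 (by norm_num)
      have e3 := (((((hv2 k).mono (b := -3 / 5) (by norm_num)).sub e2).add
        ((hg1 k).mono (b := -3 / 5) (by norm_num))).add ((hom1 k).const_mul (-2)))
      refine e3.congr fun t _ => ?_
      simp only [hy]
      ring
    refine e1.congr fun t _ => ?_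
    simp only [hX, hu, hG, Pi.add_apply, mul_sub, Finset.sum_sub_distrib, Finset.mul_sum]
    have e4 : ∑ x, B j x * (t ^ (-2 / 5 : ℝ) * an (an (F x)) (th m t, t)) =
        ∑ x, t ^ (-2 / 5 : ℝ) * (B j x * an (an (F x)) (th m t, t)) :=
      Finset.sum_congr rfl fun k _ => by ring
    rw [e4]
    ring
  · intro i
    obtain ⟨_, ht2⟩ := ht m (th m) u (F i) (crv_th m) (hSF i) hu1
    have hDs : ∀ j, SyA 0 fun t => dX i (F j) (th m t, t) := fun j =>
      (hc m (th m) _ (crv_th m) (hSD i j)).1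
    have T1 : SyA (-4 / 5) fun t => ∑ j, A i j * deriv (deriv (th0 j)) t :=
      syA_sum _ fun j _ => (syA_deriv2_th0 j).const_mul _
    have T2 : SyA (-4 / 5) fun t => ∑ j, ∑ k, B j k * (dX i (F j) (th m t, t) *
        (v k t - t ^ (-2 / 5 : ℝ) * an (an (F k)) (th m t, t) +
        2 * t ^ (-3 / 5 : ℝ) * an (an (an (dT (F k)))) (th m t, t))) :=
      syA_sum _ fun j _ => syA_sum _ fun k _ => ((hDs j).mul' (hv2 k) (by norm_num)).const_mul _
    have T3 : SyA (-4 / 5) fun t => ∑ j, ∑ k, B j k * (dX i (F j) (th m t, t) *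
        (p k t + (-2 * r k t + -2 * s k t))) :=
      syA_sum _ fun j _ => syA_sum _ fun k _ => ((hDs j).mul' (hg1 k) (by norm_num)).const_mul _
    have hsum := (((((((T1.sub (hv3 i)).sub (hp3 i)).add ((hr3 i).const_mul 2)).add
      ((hs3 i).const_mul 2)).add ((hom3 i).const_mul 2)).sub ht2).sub T2).sub T3
    refine hsum.congr fun t htp => ?_
    have r1 : res A h X i t = (∑ j, A i j * deriv (deriv (th0 j)) t) +
        deriv (deriv (y i)) t - F i (X t, t) := by
      unfold res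
      congr 1
      rw [← mulA hAB (fun k => deriv (deriv (y k)) t) i, ← Finset.sum_add_distrib]
      exact Finset.sum_congr rfl fun j _ => by rw [hXd j t htp]; ring
    have r2 : ∀ j, dX j (F i) (th m t, t) = dX i (F j) (th m t, t) := fun j =>
      ES.dX_comm j i hh _
    have r3 : ∑ j, dX j (F i) (th m t, t) * u t j =
        ∑ j, ∑ k, B j k * (dX i (F j) (th m t, t) * y k t) := by
      refine Finset.sum_congr rfl fun j _ => ?_
      rw [r2, hu]
      simp only
      rw [Finset.mul_sum]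
      exact Finset.sum_congr rfl fun k _ => by ring
    have r4 : ∑ j, ∑ k, B j k * (dX i (F j) (th m t, t) * y k t) =
        (∑ j, ∑ k, B j k * (dX i (F j) (th m t, t) *
          (v k t - t ^ (-2 / 5 : ℝ) * an (an (F k)) (th m t, t) +
          2 * t ^ (-3 / 5 : ℝ) * an (an (an (dT (F k)))) (th m t, t)))) +
        (∑ j, ∑ k, B j k * (dX i (F j) (th m t, t) * (p k t + (-2 * r k t + -2 * s k t)))) +
        t ^ (-2 / 5 : ℝ) * P i (th m t, t) - 2 * t ^ (-3 / 5 : ℝ) * R i (th m t, t) -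
        2 * t ^ (-3 / 5 : ℝ) * S i (th m t, t) := by
      simp only [hP, hR, hS, Finset.mul_sum]
      rw [← Finset.sum_add_distrib, ← Finset.sum_add_distrib, ← Finset.sum_sub_distrib,
        ← Finset.sum_sub_distrib]
      refine Finset.sum_congr rfl fun j _ => ?_
      rw [← Finset.sum_add_distrib, ← Finset.sum_add_distrib, ← Finset.sum_sub_distrib,
        ← Finset.sum_sub_distrib]
      refine Finset.sum_congr rfl fun k _ => ?_
      simp only [hy, hom]
      ring
    have r5 : th m t + u t = X t := rfl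
    rw [r1, hyd i t htp, r3, r4, r5]
    ring

end Pool.Agent.Helper87K9.E3
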