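import Pool.Agent.Helper6K9.E3.Stm

/-! # [LIN]: linear change of variables for trigonometric polynomials -/

set_option autoImplicit false

namespace Pool.Agent.Helper87K9.E3

open Set Filter Topology
open scoped ContDiff
open Pool.Agent.Helper6K9.ES (Q E Per Sm dX dT av an res bmp Small Sol)
open Pool.Agent.Helper6K9.E3
open Pool.Agent.Helper6K9

namespace LinL

/-- balanced digits -/
theorem digits (K M : ℤ) (hM : 2 * K < M) : ∀ (n : ℕ) (κ : Fin n → ℤ), (∀ i, |κ i| ≤ K) →
    ∑ i : Fin n, κ i * M ^ (i : ℕ) = 0 → κ = 0 := by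
  intro n
  induction n with
  | zero => intro κ _ _; exact Subsingleton.elim _ _
  | succ n ih =>
    intro κ hκ h
    have hK : 0 ≤ K := (abs_nonneg _).trans (hκ 0)
    rw [Fin.sum_univ_succ] at h
    have e1 : ∑ i : Fin n, κ i.succ * M ^ ((i.succ : Fin (n + 1)) : ℕ) =
        M * ∑ i : Fin n, κ i.succ * M ^ (i : ℕ) := by
      rw [Finset.mul_sum]
      refine Finset.sum_congr rfl fun i _ => ?_
      rw [Fin.val_succ, pow_succ]
      ring
    rw [e1] at h
    simp only [Fin.val_zero, pow_zero, mul_one] at h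
    set s := ∑ i : Fin n, κ i.succ * M ^ (i : ℕ) with hs
    have h0 := abs_le.1 (hκ 0)
    have hs0 : s = 0 := by
      by_contra hne
      rcases lt_or_gt_of_ne hne with h1 | h1
      · have : M * s ≤ M * (-1) := by
          apply mul_le_mul_of_nonneg_left (by omega) (by omega)
        omega
      · have : M * 1 ≤ M * s := by
          apply mul_le_mul_of_nonneg_left (by omega) (by omega)
        omega
    have hk0 : κ 0 = 0 := by rw [hs0] at h; omega
    have hr := ih (fun i => κ i.succ) (fun i => hκ i.succ) hs0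
    ext i
    refine Fin.cases ?_ (fun i => ?_) i
    · exact hk0
    · exact congrFun hr i

variable {m : ℕ}

/-- the new frequencies -/
def ph (m M : ℕ) (k : Fin (m + 1) → ℤ) : Fin (m + 1) → ℤ :=
  fun j => ∑ i, k i * ES.RedL.SM m M i j

theorem ph_zero (M : ℕ) (k : Fin (m + 1) → ℤ) : ph m M k 0 = ∑ i, k i * (M : ℤ) ^ (i : ℕ) := by
  unfold ph ES.RedL.SM
  refine Finset.sum_congr rfl fun i _ => ?_
  rw [if_pos (Fin.zero_le _)]
  simp

theorem ph_add (M : ℕ) (k l : Fin (m + 1) → ℤ) : ph m M (k + l) = ph m M k + ph m M l := by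
  ext j
  simp only [ph, Pi.add_apply, add_mul, Finset.sum_add_distrib]

theorem ph_sub (M : ℕ) (k l : Fin (m + 1) → ℤ) : ph m M (k - l) = ph m M k - ph m M l := by
  ext j
  simp only [ph, Pi.sub_apply, sub_mul, Finset.sum_sub_distrib]

theorem ph_ne (N : ℕ) (k : Fin (m + 1) → ℤ) (hk : ∀ i, |k i| ≤ 2 * N)
    (h : ph m (4 * N + 1) k ≠ 0) : ph m (4 * N + 1) k 0 ≠ 0 := by
  intro h0
  apply h
  rw [ph_zero] at h0
  have := digits (2 * N) ((4 * N + 1 : ℕ) : ℤ) (by push_cast; linarith) (m + 1) k hk h0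
  rw [this]
  ext j
  simp [ph]

theorem ph_inj (N : ℕ) : Set.InjOn (ph m (4 * N + 1)) {k | ∀ i, |k i| ≤ (N : ℤ)} := by
  intro k hk l hl h
  have h1 : ph m (4 * N + 1) (k - l) 0 = 0 := by rw [ph_sub, h]; simp
  rw [ph_zero] at h1
  have := digits (2 * N) ((4 * N + 1 : ℕ) : ℤ) (by push_cast; linarith) (m + 1) (k - l) (fun i => by
    have h2 := abs_le.1 (hk i)
    have h3 := abs_le.1 (hl i)
    rw [Pi.sub_apply, abs_le]
    constructor <;> linarith) h1
  exact sub_eq_zero.1 this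

theorem inner_lin (M : ℕ) (k : Fin (m + 1) → ℤ) (p : E m) :
    ∑ i, (k i : ℝ) * (ES.RedL.lin ((ES.RedL.SM m M).map (Int.cast : ℤ → ℝ)) p).1 i =
      ∑ j, ((ph m M k j : ℤ) : ℝ) * p.1 j := by
  rw [ES.RedL.lin_apply]
  simp only [Matrix.mulVec, dotProduct, Matrix.map_apply, ph]
  push_cast
  simp only [Finset.mul_sum, Finset.sum_mul]
  rw [Finset.sum_comm]
  refine Finset.sum_congr rfl fun j _ => Finset.sum_congr rfl fun i _ => ?_
  ring

end LinL

open LinL

theorem lin_ : S_LIN := by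
  classical
  intro m N F hF
  obtain ⟨s, c, d, hs, hcd, hF⟩ := hF
  set S0 : Set (Fin (m + 1) → ℤ) := {k | ∀ i, |k i| ≤ (N : ℤ)} with hS0
  set M : ℕ := 4 * N + 1 with hM
  have hinj : Set.InjOn (ph m M) S0 := ph_inj N
  refine ⟨M, ph m M '' S0, ?_, ?_, ?_⟩
  · refine ⟨s.image (ph m M), fun k => c (Function.invFunOn (ph m M) S0 k),
      fun k => d (Function.invFunOn (ph m M) S0 k), ?_, fun k => hcd _, ?_⟩
    · intro k hk
      obtain ⟨l, hl, rfl⟩ := Finset.mem_image.1 hk
      exact ⟨l, hs l hl, rfl⟩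
    · intro p
      rw [Finset.sum_image (fun k hk l hl h => hinj (hs k hk) (hs l hl) h)]
      show F (ES.RedL.lin ((ES.RedL.SM m M).map (Int.cast : ℤ → ℝ)) p) = _
      rw [hF]
      have h2 : (ES.RedL.lin ((ES.RedL.SM m M).map (Int.cast : ℤ → ℝ)) p).2 = p.2 := by
        rw [ES.RedL.lin_apply]
      refine Finset.sum_congr rfl fun k hk => ?_
      show _ = c (Function.invFunOn (ph m M) S0 (ph m M k)) p.2 * _ +
        d (Function.invFunOn (ph m M) S0 (ph m M k)) p.2 * _
      rw [hinj.leftInvOn_invFunOn (hs k hk), inner_lin, h2]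
  · rintro k ⟨κ, hκ, rfl⟩ hne
    exact ph_ne N κ (fun i => (hκ i).trans (by linarith [(Nat.cast_nonneg N : (0 : ℤ) ≤ N)])) hne
  · rintro k ⟨κ, hκ, rfl⟩ l ⟨κ', hκ', rfl⟩
    constructor
    · intro hne
      rw [← ph_add] at hne ⊢
      refine ph_ne N _ (fun i => ?_) hne
      have h2 := abs_le.1 (hκ i)
      have h3 := abs_le.1 (hκ' i)
      rw [Pi.add_apply, abs_le]
      constructor <;> linarith
    · intro hne
      rw [← ph_sub] at hne ⊢
      refine ph_ne N _ (fun i => ?_) hne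
      have h2 := abs_le.1 (hκ i)
      have h3 := abs_le.1 (hκ' i)
      rw [Pi.sub_apply, abs_le]
      constructor <;> linarith

end Pool.Agent.Helper87K9.E3
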