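import Pool.Agent.Helper6K9.E3.Stm

/-! # [SEP]: the passes are separated -/

set_option autoImplicit false

namespace Pool.Agent.Helper87K9.E3

open Set Filter Topology
open scoped ContDiff
open Pool.Agent.Helper6K9.E3

namespace SepL

theorem hd1 {t : ℝ} (ht : 0 < t) : HasDerivAt (th0 1) (t ^ (-11 / 20 : ℝ)) t := by
  have h1 := (Real.hasDerivAt_rpow_const (x := t) (p := 9 / 20) (Or.inl ht.ne')).const_mul (20 / 9)
  have h2 : th0 1 = fun t : ℝ => 20 / 9 * t ^ (9 / 20 : ℝ) := by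
    funext t
    simp [th0]
  rw [h2]
  refine h1.congr_deriv ?_
  rw [← mul_assoc]
  norm_num

theorem th2 : th0 2 = fun t : ℝ => -10 * t ^ (-1 / 10 : ℝ) := by
  funext t
  simp [th0]

theorem hd2 {t : ℝ} (ht : 0 < t) : HasDerivAt (th0 2) (t ^ (-11 / 10 : ℝ)) t := by
  have h1 := (Real.hasDerivAt_rpow_const (x := t) (p := -1 / 10) (Or.inl ht.ne')).const_mul (-10)
  rw [th2]
  refine h1.congr_deriv ?_
  rw [← mul_assoc]
  norm_num

/-- increments on `[τ, σ]` with `σ ≤ 2 τ` -/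
theorem inc {f : ℝ → ℝ} {e : ℝ} (he : e ≤ 0) (he2 : -2 ≤ e)
    (hf : ∀ t : ℝ, 0 < t → HasDerivAt f (t ^ e) t) {τ σ : ℝ} (h0 : 0 < τ) (h1 : τ < σ)
    (h2 : σ ≤ 2 * τ) : (σ - τ) * (1 / 4 * τ ^ e) ≤ f σ - f τ ∧ f σ - f τ ≤ (σ - τ) * τ ^ e := by
  obtain ⟨d, hd, hd'⟩ := exists_hasDerivAt_eq_slope f (fun x => x ^ e) h1
    (fun x hx => (hf x (h0.trans_le hx.1)).continuousAt.continuousWithinAt)
    (fun x hx => hf x (h0.trans hx.1))
  have hd0 : 0 < d := h0.trans hd.1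
  have h3 : f σ - f τ = (σ - τ) * d ^ e := by
    have : σ - τ ≠ 0 := by linarith
    rw [hd']
    field_simp
  have h4 : d ^ e ≤ τ ^ e := Real.rpow_le_rpow_of_nonpos h0 hd.1.le he
  have h5 : (2 * τ) ^ e ≤ d ^ e := Real.rpow_le_rpow_of_nonpos hd0 (hd.2.le.trans h2) he
  have h6 : (2 * τ) ^ e = 2 ^ e * τ ^ e := Real.mul_rpow (by norm_num) h0.le
  have h7 : (1 / 4 : ℝ) ≤ 2 ^ e := by
    have : (2 : ℝ) ^ (-2 : ℝ) ≤ 2 ^ e := Real.rpow_le_rpow_of_exponent_le (by norm_num) he2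
    have h8 : (2 : ℝ) ^ (-2 : ℝ) = 1 / 4 := by
      rw [Real.rpow_neg (by norm_num)]
      norm_num
    rw [h8] at this
    exact this
  have h9 : 0 < τ ^ e := Real.rpow_pos_of_pos h0 e
  have h10 : 1 / 4 * τ ^ e ≤ d ^ e := by
    refine le_trans ?_ (h6 ▸ h5)
    exact mul_le_mul_of_nonneg_right h7 h9.le
  rw [h3]
  exact ⟨mul_le_mul_of_nonneg_left h10 (by linarith), mul_le_mul_of_nonneg_left h4 (by linarith)⟩

theorem dist_int {D : ℝ} (_h0 : 0 ≤ D) (h1 : D ≤ 1 / 2) (a : ℤ) : D ≤ |D - a| := by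
  rcases le_or_gt a 0 with h | h
  · have : (a : ℝ) ≤ 0 := by exact_mod_cast h
    exact (by linarith : D ≤ D - a).trans (le_abs_self _)
  · have : (1 : ℝ) ≤ a := by exact_mod_cast h
    exact (by linarith : D ≤ -(D - a)).trans (neg_le_abs _)

end SepL

open SepL

theorem sep : S_SEP := by
  intro C
  set B : ℝ := 40 + 8 * |C| with hB
  have hC0 : 0 ≤ |C| := abs_nonneg C
  have hCle : C ≤ |C| := le_abs_self C
  have hB40 : 40 ≤ B := by linarith
  refine ⟨B ^ 10, one_le_pow₀ (by linarith), ?_⟩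
  intro τ hτ k hk
  have hB0 : 0 < B := by linarith
  have hτ0 : 0 < τ := lt_of_lt_of_le (by positivity) hτ
  have hk1 : (1 : ℝ) ≤ k := by exact_mod_cast hk
  set y : ℝ := τ ^ (1 / 20 : ℝ) with hy
  have hy0 : 0 < y := Real.rpow_pos_of_pos hτ0 _
  have hyn : ∀ n : ℕ, τ ^ ((n : ℝ) / 20) = y ^ n := by
    intro n
    rw [hy, ← Real.rpow_natCast, ← Real.rpow_mul hτ0.le]
    congr 1
    ring
  have hynn : ∀ n : ℕ, τ ^ (-((n : ℝ) / 20)) = (y ^ n)⁻¹ := by
    intro n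
    rw [Real.rpow_neg hτ0.le, hyn]
  have e11 : τ ^ (-11 / 20 : ℝ) = (y ^ 11)⁻¹ := by
    rw [← hynn 11]; norm_num
  have e28 : τ ^ (-7 / 5 : ℝ) = (y ^ 28)⁻¹ := by
    rw [← hynn 28]; norm_num
  have e8 : τ ^ (-2 / 5 : ℝ) = (y ^ 8)⁻¹ := by
    rw [← hynn 8]; norm_num
  have e22 : τ ^ (-11 / 10 : ℝ) = (y ^ 22)⁻¹ := by
    rw [← hynn 22]; norm_num
  have e2 : τ ^ (-1 / 10 : ℝ) = (y ^ 2)⁻¹ := by
    rw [← hynn 2]; norm_num
  have e20 : τ = y ^ 20 := by
    rw [← hyn 20]; norm_num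
  have hyB : B ≤ y ^ 2 := by
    have h1 : (B ^ 10) ^ (1 / 10 : ℝ) ≤ τ ^ (1 / 10 : ℝ) :=
      Real.rpow_le_rpow (by positivity) hτ (by norm_num)
    have h2 : (B ^ 10) ^ (1 / 10 : ℝ) = B := by
      rw [← Real.rpow_natCast, ← Real.rpow_mul hB0.le]
      norm_num
    have h3 : τ ^ (1 / 10 : ℝ) = y ^ 2 := by
      rw [← hyn 2]; norm_num
    linarith
  have hy1 : 1 ≤ y := by
    by_contra hlt
    push Not at hlt
    have : y ^ 2 ≤ 1 := pow_le_one₀ hy0.le hlt.le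
    linarith
  have hyC : 8 * |C| ≤ y ^ 2 := by linarith
  have hy6 : y ^ 2 ≤ y ^ 6 := pow_le_pow_right₀ hy1 (by norm_num)
  have hy17 : y ^ 2 ≤ y ^ 17 := pow_le_pow_right₀ hy1 (by norm_num)
  rw [e11, e28, e8]
  constructor
  · intro hkτ
    have hσ1 : τ < τ + k := by linarith
    have hσ2 : τ + k ≤ 2 * τ := by linarith
    have hsub : τ + k - τ = k := by ring
    by_cases hA : (k : ℝ) ≤ 1 / 2 * y ^ 11
    · refine ⟨1, Or.inl rfl, fun a => ?_⟩
      obtain ⟨l1, l2⟩ := inc (e := -11 / 20) (by norm_num) (by norm_num) (fun t ht => hd1 ht)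
        hτ0 hσ1 hσ2
      rw [hsub, e11] at l1 l2
      set D := th0 1 (τ + k) - th0 1 τ with hD
      have h11 : 0 < (y ^ 11)⁻¹ := by positivity
      have hDp : 0 ≤ D := le_trans (by positivity) l1
      have hDh : D ≤ 1 / 2 := by
        refine l2.trans ?_
        rw [← div_eq_mul_inv, div_le_iff₀ (by positivity)]
        exact hA
      refine le_trans ?_ (dist_int hDp hDh a)
      refine le_trans ?_ l1
      have h1 : C * k * (y ^ 28)⁻¹ ≤ 1 / 8 * (k * (y ^ 11)⁻¹) := by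
        have h2 : (y ^ 28)⁻¹ = (y ^ 17)⁻¹ * (y ^ 11)⁻¹ := by
          rw [← mul_inv, ← pow_add]
        have h3 : C * (y ^ 17)⁻¹ ≤ 1 / 8 := by
          rw [← div_eq_mul_inv, div_le_iff₀ (by positivity)]
          linarith
        calc C * k * (y ^ 28)⁻¹ = (C * (y ^ 17)⁻¹) * (k * (y ^ 11)⁻¹) := by rw [h2]; ring
          _ ≤ _ := mul_le_mul_of_nonneg_right h3 (by positivity)
      have h4 : (y ^ 11)⁻¹ ≤ k * (y ^ 11)⁻¹ := le_mul_of_one_le_left h11.le hk1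
      have h5 : (k : ℝ) * (1 / 4 * (y ^ 11)⁻¹) = 1 / 4 * (k * (y ^ 11)⁻¹) := by ring
      rw [h5]
      linarith
    · push Not at hA
      refine ⟨2, Or.inr rfl, fun a => ?_⟩
      obtain ⟨l1, l2⟩ := inc (e := -11 / 10) (by norm_num) (by norm_num) (fun t ht => hd2 ht)
        hτ0 hσ1 hσ2
      rw [hsub, e22] at l1 l2
      set D := th0 2 (τ + k) - th0 2 τ with hD
      have h22 : 0 < (y ^ 22)⁻¹ := by positivity
      have hDp : 0 ≤ D := le_trans (by positivity) l1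
      have hDh : D ≤ 1 / 2 := by
        refine l2.trans ?_
        rw [← div_eq_mul_inv, div_le_iff₀ (by positivity)]
        have h6 : y ^ 22 = y ^ 2 * y ^ 20 := by ring
        have h7 : 40 * y ^ 20 ≤ y ^ 2 * y ^ 20 :=
          mul_le_mul_of_nonneg_right (by linarith) (by positivity)
        rw [h6]
        rw [e20] at hkτ
        have : 0 < y ^ 20 := by positivity
        linarith
      refine le_trans ?_ (dist_int hDp hDh a)
      refine le_trans ?_ l1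
      have h1 : C * k * (y ^ 28)⁻¹ ≤ 1 / 8 * (k * (y ^ 22)⁻¹) := by
        have h2 : (y ^ 28)⁻¹ = (y ^ 6)⁻¹ * (y ^ 22)⁻¹ := by
          rw [← mul_inv, ← pow_add]
        have h3 : C * (y ^ 6)⁻¹ ≤ 1 / 8 := by
          rw [← div_eq_mul_inv, div_le_iff₀ (by positivity)]
          linarith
        calc C * k * (y ^ 28)⁻¹ = (C * (y ^ 6)⁻¹) * (k * (y ^ 22)⁻¹) := by rw [h2]; ring
          _ ≤ _ := mul_le_mul_of_nonneg_right h3 (by positivity)
      have h4 : 1 / 2 * (y ^ 11)⁻¹ ≤ k * (y ^ 22)⁻¹ := by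
        have h5 : (y ^ 11)⁻¹ = y ^ 11 * (y ^ 22)⁻¹ := by
          field_simp
        rw [h5, ← mul_assoc]
        exact mul_le_mul_of_nonneg_right hA.le h22.le
      have h5 : (k : ℝ) * (1 / 4 * (y ^ 22)⁻¹) = 1 / 4 * (k * (y ^ 22)⁻¹) := by ring
      rw [h5]
      have h11 : 0 < (y ^ 11)⁻¹ := by positivity
      linarith
  · intro hkτ a
    obtain ⟨l1, _⟩ := inc (e := -11 / 10) (by norm_num) (by norm_num) (fun t ht => hd2 ht)
      hτ0 (by linarith : τ < 2 * τ) le_rfl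
    rw [e22] at l1
    set D := th0 2 (τ + k) - th0 2 τ with hD
    have hmono : th0 2 (2 * τ) ≤ th0 2 (τ + k) := by
      rw [th2]
      have : (τ + k) ^ (-1 / 10 : ℝ) ≤ (2 * τ) ^ (-1 / 10 : ℝ) :=
        Real.rpow_le_rpow_of_nonpos (by linarith) (by linarith) (by norm_num)
      simp only
      linarith
    have hDl : 1 / 4 * (y ^ 2)⁻¹ ≤ D := by
      have h1 : (2 * τ - τ) * (1 / 4 * (y ^ 22)⁻¹) = 1 / 4 * (y ^ 2)⁻¹ := by
        rw [e20]
        field_simp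
        ring
      rw [h1] at l1
      linarith
    have hDh : D ≤ 1 / 2 := by
      have h1 : D = 10 * (y ^ 2)⁻¹ - 10 * (τ + k) ^ (-1 / 10 : ℝ) := by
        rw [hD, th2, ← e2]
        ring
      have h2 : 0 < (τ + k) ^ (-1 / 10 : ℝ) := Real.rpow_pos_of_pos (by linarith) _
      have h3 : (y ^ 2)⁻¹ ≤ 1 / 40 := by
        rw [inv_eq_one_div]
        exact one_div_le_one_div_of_le (by norm_num) (by linarith)
      linarith
    have h2 : 0 < (y ^ 2)⁻¹ := by positivity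
    refine le_trans ?_ (dist_int (by linarith) hDh a)
    refine le_trans ?_ hDl
    have h3 : (y ^ 11)⁻¹ ≤ (y ^ 2)⁻¹ :=
      inv_anti₀ (by positivity) (pow_le_pow_right₀ hy1 (by norm_num))
    have h4 : C * (y ^ 8)⁻¹ ≤ 1 / 8 * (y ^ 2)⁻¹ := by
      have h5 : (y ^ 8)⁻¹ = (y ^ 6)⁻¹ * (y ^ 2)⁻¹ := by
        rw [← mul_inv, ← pow_add]
      have h6 : C * (y ^ 6)⁻¹ ≤ 1 / 8 := by
        rw [← div_eq_mul_inv, div_le_iff₀ (by positivity)]
        linarith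
      rw [h5, ← mul_assoc]
      exact mul_le_mul_of_nonneg_right h6 h2.le
    linarith

end Pool.Agent.Helper87K9.E3
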